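import Mathlib

/-! Counting chains of a relation on a finite type: recursion, entropy lower bound,
eigenvector upper bound, existence of the growth rate. -/

set_option autoImplicit false

namespace Pool.Agent.MP_879d0a_co.H89

open Finset Filter Topology

section chains

variable {D : Type} (R : D → D → Prop)

/-- chains with `l` terms -/
abbrev Chain (l : ℕ) : Type :=
  {w : Fin l → D // ∀ i j : Fin l, j.val = i.val + 1 → R (w i) (w j)}

open Classical in
/-- number of chains with `l+1` terms starting at `e` -/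
noncomputable def cnt [Fintype D] : ℕ → D → ℕ
  | 0, _ => 1
  | l + 1, e => ∑ f, if R e f then cnt l f else 0

/-- chains with `l+1` terms starting at `e` -/
abbrev ChainFrom (l : ℕ) (e : D) : Type := {w : Chain R (l + 1) // w.1 0 = e}

/-- decomposition of a chain from `e` -/
def chainFromEquiv (l : ℕ) (e : D) :
    ChainFrom R (l + 1) e ≃ Σ f : {f : D // R e f}, ChainFrom R l f.1 where
  toFun w := ⟨⟨w.1.1 1, by
      have := w.1.2 0 1 (by simp)
      rwa [w.2] at this⟩,
    ⟨⟨fun i => w.1.1 i.succ, fun i j h => w.1.2 i.succ j.succ (by simp [h])⟩, by simp⟩⟩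
  invFun x := ⟨⟨Fin.cons e x.2.1.1, by
      intro i j h
      refine Fin.cases (motive := fun j => j.val = i.val + 1 →
        R ((Fin.cons e x.2.1.1 : Fin (l + 2) → D) i) ((Fin.cons e x.2.1.1 : Fin (l + 2) → D) j))
        (by simp) (fun j' => ?_) j h
      refine Fin.cases (motive := fun i => (Fin.succ j').val = i.val + 1 →
        R ((Fin.cons e x.2.1.1 : Fin (l + 2) → D) i)
          ((Fin.cons e x.2.1.1 : Fin (l + 2) → D) j'.succ)) ?_ (fun i' => ?_) i
      · intro h
        have hj : j' = 0 := by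
          apply Fin.ext
          simpa using h
        subst hj
        simp only [Fin.cons_zero, Fin.cons_succ]
        rw [x.2.2]
        exact x.1.2
      · intro h
        simp only [Fin.cons_succ]
        apply x.2.1.2
        simpa using h⟩, by simp⟩
  left_inv w := by
    apply Subtype.ext
    apply Subtype.ext
    funext i
    refine Fin.cases ?_ (fun i' => ?_) i
    · simp [w.2]
    · simp
  right_inv x := by
    obtain ⟨⟨f, hf⟩, ⟨⟨w, hw⟩, h0⟩⟩ := x
    simp only at h0
    subst h0
    rfl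

variable [Fintype D]

theorem card_chainFrom (l : ℕ) (e : D) : Nat.card (ChainFrom R l e) = cnt R l e := by
  classical
  induction l generalizing e with
  | zero =>
    rw [cnt, Nat.card_eq_one_iff_unique]
    refine ⟨⟨fun a b => ?_⟩, ⟨⟨⟨fun _ => e, fun i j h => ?_⟩, rfl⟩⟩⟩
    · apply Subtype.ext
      apply Subtype.ext
      funext i
      have : i = 0 := Fin.ext (by omega)
      rw [this, a.2, b.2]
    · omega
  | succ l ih =>
    rw [Nat.card_congr (chainFromEquiv R l e), Nat.card_sigma, cnt]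
    simp only [ih]
    rw [← Finset.sum_filter]
    exact (Finset.sum_subtype (p := fun f => R e f) _ (by simp) (fun f => cnt R l f)).symm

theorem card_chain_succ (l : ℕ) : Nat.card (Chain R (l + 1)) = ∑ e, cnt R l e := by
  classical
  rw [← Nat.card_congr (Equiv.sigmaFiberEquiv (fun w : Chain R (l + 1) => w.1 0)),
    Nat.card_sigma]
  exact Finset.sum_congr rfl fun e _ => card_chainFrom R l e

theorem card_chain_add_le (a b : ℕ) :
    Nat.card (Chain R (a + b)) ≤ Nat.card (Chain R a) * Nat.card (Chain R b) := by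
  rw [← Nat.card_prod]
  let F : Chain R (a + b) → Chain R a × Chain R b := fun w =>
    (⟨fun i => w.1 (Fin.castAdd b i), fun i j h => w.2 _ _ (by simpa using h)⟩,
     ⟨fun i => w.1 (Fin.natAdd a i), fun i j h => w.2 _ _ (by simp; omega)⟩)
  apply Nat.card_le_card_of_injective F
  intro w w' h
  apply Subtype.ext
  funext i
  have h1 := congrArg (fun x => x.1.1) h
  have h2 := congrArg (fun x => x.2.1) h
  refine Fin.addCases (fun i => ?_) (fun i => ?_) i
  · exact congrFun h1 i
  · exact congrFun h2 i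

theorem cnt_pos (hR : ∀ e, ∃ f, R e f) (l : ℕ) (e : D) : 0 < cnt R l e := by
  classical
  induction l generalizing e with
  | zero => simp [cnt]
  | succ l ih =>
    obtain ⟨f, hf⟩ := hR e
    rw [cnt]
    refine lt_of_lt_of_le ?_ (Finset.single_le_sum (fun _ _ => Nat.zero_le _) (mem_univ f))
    simpa [hf] using ih f

theorem card_chain_pos [Nonempty D] (hR : ∀ e, ∃ f, R e f) (l : ℕ) :
    0 < Nat.card (Chain R l) := by
  cases l with
  | zero =>
    have : Nonempty (Chain R 0) := ⟨⟨Fin.elim0, fun i => i.elim0⟩⟩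
    exact Nat.card_pos
  | succ l =>
    rw [card_chain_succ]
    exact Finset.sum_pos (fun e _ => cnt_pos R hR l e) Finset.univ_nonempty

/-- the growth rate exists -/
theorem exists_growth [Nonempty D] (hR : ∀ e, ∃ f, R e f) :
    ∃ r : ℝ, Tendsto (fun l : ℕ => (Nat.card (Chain R l) : ℝ) ^ (1 / (l : ℝ))) atTop (𝓝 r) := by
  have hpos : ∀ l, (0 : ℝ) < Nat.card (Chain R l) := fun l => by
    exact_mod_cast card_chain_pos R hR l
  have hsub : Subadditive (fun l => Real.log (Nat.card (Chain R l))) := by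
    intro a b
    rw [← Real.log_mul (hpos a).ne' (hpos b).ne']
    apply Real.log_le_log (hpos _)
    exact_mod_cast card_chain_add_le R a b
  have hb : BddBelow (Set.range fun l : ℕ => Real.log (Nat.card (Chain R l)) / (l : ℝ)) := by
    refine ⟨0, ?_⟩
    rintro _ ⟨l, rfl⟩
    apply div_nonneg _ (Nat.cast_nonneg _)
    exact Real.log_natCast_nonneg _
  refine ⟨Real.exp hsub.lim, ?_⟩
  have := (Real.continuous_exp.tendsto _).comp (hsub.tendsto_lim hb)
  refine this.congr fun l => ?_
  simp only [Function.comp]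
  rw [Real.rpow_def_of_pos (hpos l)]
  congr 1
  ring

/-- one step of the entropy bound -/
theorem entropy_step (p : D → ℝ) (Q : D → D → ℝ) (hp : ∀ e, 0 < p e) (hQ : ∀ e f, 0 ≤ Q e f)
    (hQR : ∀ e f, Q e f ≠ 0 → R e f) (hrow : ∀ e, ∑ f, Q e f = p e)
    (hR : ∀ e, ∃ f, R e f) (l : ℕ) (e : D) :
    ∑ f, Q e f * Real.log (cnt R l f) + p e * Real.log (p e) - ∑ f, Q e f * Real.log (Q e f)
      ≤ p e * Real.log (cnt R (l + 1) e) := by
  classical
  set S : ℝ := (cnt R (l + 1) e : ℝ) with hS
  have hSpos : 0 < S := by rw [hS]; exact_mod_cast cnt_pos R hR (l + 1) e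
  have hSsum : S = ∑ f, if R e f then (cnt R l f : ℝ) else 0 := by
    rw [hS, cnt]
    push_cast
    rfl
  have key : ∀ f, Q e f * Real.log (cnt R l f) + Q e f * Real.log (p e)
      - Q e f * Real.log (Q e f) - Q e f * Real.log S
      ≤ (if R e f then (cnt R l f : ℝ) else 0) * (p e / S) - Q e f := by
    intro f
    have hc : (0 : ℝ) < cnt R l f := by exact_mod_cast cnt_pos R hR l f
    by_cases h0 : Q e f = 0
    · rw [h0]
      have : 0 ≤ (if R e f then (cnt R l f : ℝ) else 0) * (p e / S) := by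
        apply mul_nonneg _ (div_pos (hp e) hSpos).le
        split_ifs
        · exact hc.le
        · exact le_rfl
      linarith
    · have hq : 0 < Q e f := lt_of_le_of_ne (hQ e f) (Ne.symm h0)
      rw [if_pos (hQR e f h0)]
      have hx : 0 < (cnt R l f : ℝ) * p e / (Q e f * S) :=
        div_pos (mul_pos hc (hp e)) (mul_pos hq hSpos)
      have h1 := Real.log_le_sub_one_of_pos hx
      rw [Real.log_div (mul_pos hc (hp e)).ne' (mul_pos hq hSpos).ne',
        Real.log_mul hc.ne' (hp e).ne', Real.log_mul hq.ne' hSpos.ne'] at h1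
      have h2 := mul_le_mul_of_nonneg_left h1 hq.le
      have h3 : Q e f * ((cnt R l f : ℝ) * p e / (Q e f * S) - 1)
          = (cnt R l f : ℝ) * (p e / S) - Q e f := by
        field_simp
      rw [h3] at h2
      linarith
  have hsum := Finset.sum_le_sum (fun f (_ : f ∈ (univ : Finset D)) => key f)
  simp only [Finset.sum_sub_distrib, Finset.sum_add_distrib, ← Finset.sum_mul, hrow] at hsum
  rw [← hSsum] at hsum
  have : S * (p e / S) = p e := by field_simp
  linarith

theorem entropy_bound (p : D → ℝ) (Q : D → D → ℝ) (hp : ∀ e, 0 < p e) (hQ : ∀ e f, 0 ≤ Q e f)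
    (hQR : ∀ e f, Q e f ≠ 0 → R e f) (hrow : ∀ e, ∑ f, Q e f = p e)
    (hcol : ∀ f, ∑ e, Q e f = p f) (hR : ∀ e, ∃ f, R e f) (l : ℕ) :
    (l : ℝ) * (∑ e, p e * Real.log (p e) - ∑ e, ∑ f, Q e f * Real.log (Q e f))
      ≤ ∑ e, p e * Real.log (cnt R l e) := by
  induction l with
  | zero => simp [cnt]
  | succ l ih =>
    have hsum := Finset.sum_le_sum (fun e (_ : e ∈ (univ : Finset D)) =>
      entropy_step R p Q hp hQ hQR hrow hR l e)
    simp only [Finset.sum_sub_distrib, Finset.sum_add_distrib] at hsum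
    rw [Finset.sum_comm (f := fun e f => Q e f * Real.log (cnt R l f))] at hsum
    simp only [← Finset.sum_mul, hcol] at hsum
    push_cast
    linarith

/-- lower bound for the number of chains -/
theorem pow_le_card_chain [Nonempty D] (p : D → ℝ) (Q : D → D → ℝ) (hp : ∀ e, 0 < p e)
    (hQ : ∀ e f, 0 ≤ Q e f)
    (hQR : ∀ e f, Q e f ≠ 0 → R e f) (hrow : ∀ e, ∑ f, Q e f = p e)
    (hcol : ∀ f, ∑ e, Q e f = p f) (hR : ∀ e, ∃ f, R e f) (r : ℝ) (hr : 0 < r)
    (hH : (∑ e, p e) * Real.log r
      ≤ ∑ e, p e * Real.log (p e) - ∑ e, ∑ f, Q e f * Real.log (Q e f)) (l : ℕ) :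
    r ^ l ≤ Nat.card (Chain R (l + 1)) := by
  have hN : (0 : ℝ) < Nat.card (Chain R (l + 1)) := by
    exact_mod_cast card_chain_pos R hR (l + 1)
  have hP : 0 < ∑ e, p e := Finset.sum_pos (fun e _ => hp e) Finset.univ_nonempty
  have h1 := entropy_bound R p Q hp hQ hQR hrow hcol hR l
  have h2 : ∑ e, p e * Real.log (cnt R l e)
      ≤ ∑ e, p e * Real.log (Nat.card (Chain R (l + 1))) := by
    apply Finset.sum_le_sum
    intro e _
    apply mul_le_mul_of_nonneg_left _ (hp e).le
    apply Real.log_le_log (by exact_mod_cast cnt_pos R hR l e)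
    rw [card_chain_succ]
    exact_mod_cast Finset.single_le_sum (f := fun e => cnt R l e) (fun _ _ => Nat.zero_le _)
      (mem_univ e)
  rw [← Finset.sum_mul] at h2
  have h3 : (∑ e, p e) * ((l : ℝ) * Real.log r)
      ≤ (∑ e, p e) * Real.log (Nat.card (Chain R (l + 1))) := by
    have := mul_le_mul_of_nonneg_left hH (Nat.cast_nonneg (α := ℝ) l)
    nlinarith
  have h4 := le_of_mul_le_mul_left h3 hP
  rw [← Real.log_pow] at h4
  exact (Real.log_le_log_iff (pow_pos hr l) hN).1 h4

open Classical in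
/-- upper bound for the number of chains from a positive super-eigenvector -/
theorem cnt_le (h : D → ℝ) (hh : ∀ e, 1 ≤ h e) (r : ℝ) (hr : 0 ≤ r)
    (heig : ∀ e, (∑ f, if R e f then h f else 0) ≤ r * h e) (l : ℕ) (e : D) :
    (cnt R l e : ℝ) ≤ r ^ l * h e := by
  induction l generalizing e with
  | zero => simpa [cnt] using hh e
  | succ l ih =>
    rw [cnt]
    push_cast
    calc (∑ f, if R e f then (cnt R l f : ℝ) else 0)
        ≤ ∑ f, r ^ l * (if R e f then h f else 0) := by
          apply Finset.sum_le_sum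
          intro f _
          split_ifs
          · exact ih f
          · simp
      _ = r ^ l * ∑ f, (if R e f then h f else 0) := by rw [Finset.mul_sum]
      _ ≤ r ^ l * (r * h e) := mul_le_mul_of_nonneg_left (heig e) (pow_nonneg hr l)
      _ = r ^ (l + 1) * h e := by ring

end chains

theorem tendsto_const_mul_pow_root (C r : ℝ) (hC : 0 < C) (hr : 0 < r) :
    Tendsto (fun l : ℕ => (C * r ^ l) ^ (1 / (l : ℝ))) atTop (𝓝 r) := by
  have h1 : Tendsto (fun l : ℕ => Real.log C * (1 / (l : ℝ)) + Real.log r) atTop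
      (𝓝 (Real.log C * 0 + Real.log r)) :=
    (tendsto_one_div_atTop_nhds_zero_nat.const_mul _).add_const _
  have h2 := (Real.continuous_exp.tendsto _).comp h1
  rw [mul_zero, zero_add, Real.exp_log hr] at h2
  refine h2.congr' ?_
  filter_upwards [eventually_gt_atTop 0] with l hl
  simp only [Function.comp]
  rw [Real.rpow_def_of_pos (mul_pos hC (pow_pos hr l)), Real.log_mul hC.ne' (pow_pos hr l).ne',
    Real.log_pow]
  congr 1
  have : (l : ℝ) ≠ 0 := by exact_mod_cast hl.ne'
  field_simp

theorem le_growth (N : ℕ → ℝ) (r s : ℝ) (hr : 0 < r) (h : ∀ l, r ^ l ≤ N (l + 1))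
    (hs : Tendsto (fun l : ℕ => N l ^ (1 / (l : ℝ))) atTop (𝓝 s)) : r ≤ s := by
  refine le_of_tendsto_of_tendsto (tendsto_const_mul_pow_root r⁻¹ r (inv_pos.2 hr) hr) hs ?_
  filter_upwards [eventually_gt_atTop 0] with l hl
  obtain ⟨k, rfl⟩ : ∃ k, l = k + 1 := ⟨l - 1, by omega⟩
  apply Real.rpow_le_rpow (by positivity) _ (by positivity)
  have : r⁻¹ * r ^ (k + 1) = r ^ k := by
    field_simp
    ring
  rw [this]
  exact h k

theorem growth_le (N : ℕ → ℝ) (C r s : ℝ) (hC : 0 < C) (hr : 0 < r) (hN : ∀ l, 0 ≤ N l)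
    (h : ∀ l, N (l + 1) ≤ C * r ^ l)
    (hs : Tendsto (fun l : ℕ => N l ^ (1 / (l : ℝ))) atTop (𝓝 s)) : s ≤ r := by
  refine le_of_tendsto_of_tendsto hs
    (tendsto_const_mul_pow_root (C * r⁻¹) r (mul_pos hC (inv_pos.2 hr)) hr) ?_
  filter_upwards [eventually_gt_atTop 0] with l hl
  obtain ⟨k, rfl⟩ : ∃ k, l = k + 1 := ⟨l - 1, by omega⟩
  apply Real.rpow_le_rpow (hN _) _ (by positivity)
  have : C * r⁻¹ * r ^ (k + 1) = C * r ^ k := by
    field_simp
    ring
  rw [this]
  exact h k

end Pool.Agent.MP_879d0a_co.H89
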