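import Mathlib

/-! Numerical inequalities around the real root of `x^3 = x + 2`. -/

set_option autoImplicit false

namespace Pool.Agent.MP_879d0a_co.H89

open Real

theorem exists_root : ∃ r : ℝ, r ^ 3 = r + 2 := by
  have hc : ContinuousOn (fun x : ℝ => x ^ 3 - x - 2) (Set.Icc 1 2) := by fun_prop
  have := intermediate_value_Icc (by norm_num : (1 : ℝ) ≤ 2) hc
  have h0 : (0 : ℝ) ∈ Set.Icc ((fun x : ℝ => x ^ 3 - x - 2) 1) ((fun x : ℝ => x ^ 3 - x - 2) 2) := by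
    constructor <;> norm_num
  obtain ⟨r, _, hr⟩ := this h0
  exact ⟨r, by simp only at hr; linarith⟩

theorem root_bounds {r : ℝ} (hr : r ^ 3 = r + 2) : 1.5213 < r ∧ r < 1.5214 := by
  constructor
  · by_contra h
    push Not at h
    have h1 : r ^ 3 - r - 2 = (r - 1.5213) * (r ^ 2 + 1.5213 * r + (1.5213 ^ 2 - 1))
        + (1.5213 ^ 3 - 1.5213 - 2) := by ring
    have h2 : 0 < r ^ 2 + 1.5213 * r + (1.5213 ^ 2 - 1) := by nlinarith [sq_nonneg (r + 0.76065)]
    have h3 : (r - 1.5213) * (r ^ 2 + 1.5213 * r + (1.5213 ^ 2 - 1)) ≤ 0 :=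
      mul_nonpos_of_nonpos_of_nonneg (by linarith) h2.le
    have h4 : (1.5213 : ℝ) ^ 3 - 1.5213 - 2 < 0 := by norm_num
    linarith
  · by_contra h
    push Not at h
    have h1 : r ^ 3 - r - 2 = (r - 1.5214) * (r ^ 2 + 1.5214 * r + (1.5214 ^ 2 - 1))
        + (1.5214 ^ 3 - 1.5214 - 2) := by ring
    have h2 : 0 < r ^ 2 + 1.5214 * r + (1.5214 ^ 2 - 1) := by nlinarith [sq_nonneg (r + 0.7607)]
    have h3 : 0 ≤ (r - 1.5214) * (r ^ 2 + 1.5214 * r + (1.5214 ^ 2 - 1)) :=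
      mul_nonneg (by linarith) h2.le
    have h4 : 0 < (1.5214 : ℝ) ^ 3 - 1.5214 - 2 := by norm_num
    linarith

theorem log_root_bounds {r : ℝ} (hr : r ^ 3 = r + 2) : 0 < log r ∧ log r < 0.4197 := by
  obtain ⟨h1, h2⟩ := root_bounds hr
  have hpos : 0 < r := by linarith
  refine ⟨Real.log_pos (by linarith), ?_⟩
  have h5 : r ^ 5 ≤ 1.5214 ^ 5 := pow_le_pow_left₀ hpos.le h2.le 5
  have h6 := Real.log_le_sub_one_of_pos (show 0 < r ^ 5 / 2 ^ 3 by positivity)
  rw [Real.log_div (by positivity) (by positivity), Real.log_pow, Real.log_pow] at h6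
  have h7 := Real.log_two_lt_d9
  push_cast at h6
  norm_num at h5 h7 h6 ⊢
  linarith

theorem log_w_bound {r : ℝ} (hr : r ^ 3 = r + 2) : log (3 - r / 2) < 0.8063 := by
  obtain ⟨h1, h2⟩ := root_bounds hr
  have hpos : 0 < 3 - r / 2 := by linarith
  have h5 : (3 - r / 2) ^ 6 ≤ 2.23935 ^ 6 := pow_le_pow_left₀ hpos.le (by linarith) 6
  have h6 := Real.log_le_sub_one_of_pos (show 0 < (3 - r / 2) ^ 6 / 2 ^ 7 by positivity)
  rw [Real.log_div (by positivity) (by positivity), Real.log_pow, Real.log_pow] at h6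
  have h7 := Real.log_two_lt_d9
  push_cast at h6
  norm_num at h5 h7 h6 ⊢
  linarith

/-- `t log t` -/
noncomputable def phi (t : ℝ) : ℝ := t * log t

/-- the local entropy excess at a vertex of degree three with edge weights `x y z` -/
noncomputable def exc (r x y z : ℝ) : ℝ :=
  phi x + phi y + phi z
    - 2 * (phi ((x + y - z) / 2) + phi ((x + z - y) / 2) + phi ((y + z - x) / 2))
    - log r * (x + y + z) - 2 * (r + 2) * log r

theorem exc_swap12 (r x y z : ℝ) : exc r x y z = exc r y x z := by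
  unfold exc
  rw [add_comm y x]
  ring

theorem exc_swap23 (r x y z : ℝ) : exc r x y z = exc r x z y := by
  unfold exc
  rw [add_comm z y]
  ring

section
variable {r : ℝ} (hr : r ^ 3 = r + 2)
include hr

theorem log_b : log (r + 2) = 3 * log r := by
  rw [← hr, Real.log_pow]; norm_num

theorem log_b2 : log ((r + 2) / 2) = 3 * log r - log 2 := by
  have := root_bounds hr
  rw [Real.log_div (by linarith) (by norm_num), log_b hr]

omit hr in
theorem log_four : log 4 = 2 * log 2 := by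
  rw [show (4 : ℝ) = 2 ^ 2 by norm_num, Real.log_pow]; norm_num

theorem exc3 : 0.2 ≤ exc r 4 4 4 := by
  obtain ⟨h1, h2⟩ := root_bounds hr
  obtain ⟨h3, h4⟩ := log_root_bounds hr
  have h7 := Real.log_two_gt_d9
  unfold exc phi
  rw [show ((4 : ℝ) + 4 - 4) / 2 = 2 by norm_num, log_four]
  nlinarith

theorem exc2 : 0.1 ≤ exc r 4 4 (r + 2) := by
  obtain ⟨h1, h2⟩ := root_bounds hr
  obtain ⟨h3, h4⟩ := log_root_bounds hr
  have h5 := log_w_bound hr
  have h7 := Real.log_two_gt_d9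
  unfold exc phi
  rw [show ((4 : ℝ) + 4 - (r + 2)) / 2 = 3 - r / 2 by ring,
    show ((4 : ℝ) + (r + 2) - 4) / 2 = (r + 2) / 2 by ring, log_four, log_b hr, log_b2 hr]
  have e1 : r * log r ≤ 1.5214 * 0.4197 := by nlinarith
  have e2 : 1.5213 * 0.6931471803 ≤ r * log 2 := by nlinarith
  have e3 : (3 - r / 2) * log (3 - r / 2) ≤ 2.23935 * 0.8063 := by
    have : 0 < log (3 - r / 2) := Real.log_pos (by linarith)
    nlinarith
  nlinarith

theorem exc1 : exc r 4 (r + 2) (r + 2) = 0 := by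
  unfold exc phi
  rw [show ((4 : ℝ) + (r + 2) - (r + 2)) / 2 = 2 by ring,
    show (r + 2 + (r + 2) - 4) / 2 = r by ring, log_four, log_b hr]
  ring

theorem exc0 : -0.1 ≤ exc r (r + 2) (r + 2) (r + 2) := by
  obtain ⟨h1, h2⟩ := root_bounds hr
  obtain ⟨h3, h4⟩ := log_root_bounds hr
  have h7 := Real.log_two_gt_d9
  unfold exc phi
  rw [show (r + 2 + (r + 2) - (r + 2)) / 2 = (r + 2) / 2 by ring, log_b hr, log_b2 hr]
  have e1 : r * log r ≤ 1.5214 * 0.4197 := by nlinarith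
  have e2 : 1.5213 * 0.6931471803 ≤ r * log 2 := by nlinarith
  nlinarith

theorem exc_bound (x y z i j k : ℝ) (hx : (x = 4 ∧ i = 0) ∨ (x = r + 2 ∧ i = 1))
    (hy : (y = 4 ∧ j = 0) ∨ (y = r + 2 ∧ j = 1)) (hz : (z = 4 ∧ k = 0) ∨ (z = r + 2 ∧ k = 1)) :
    0.2 - 0.1 * (i + j + k) ≤ exc r x y z := by
  have a3 := exc3 hr
  have a2 := exc2 hr
  have a1 := exc1 hr
  have a0 := exc0 hr
  have b2 := exc_swap23 r 4 4 (r + 2)
  have c2 := exc_swap12 r 4 (r + 2) 4
  have b1 := exc_swap12 r 4 (r + 2) (r + 2)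
  have c1 := exc_swap23 r (r + 2) 4 (r + 2)
  rcases hx with ⟨rfl, rfl⟩ | ⟨rfl, rfl⟩ <;> rcases hy with ⟨rfl, rfl⟩ | ⟨rfl, rfl⟩ <;>
    rcases hz with ⟨rfl, rfl⟩ | ⟨rfl, rfl⟩ <;> linarith

end

end Pool.Agent.MP_879d0a_co.H89
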