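import Mathlib
import Pool.Agent.MP_879d0a_co.H89.Chains
import Pool.Agent.MP_879d0a_co.H89.Numeric

/-! The entropy lower bound for graphs with half of the degrees two and half three. -/

set_option autoImplicit false
set_option linter.unusedSectionVars false

namespace Pool.Agent.MP_879d0a_co.H89

open Finset Filter Topology Real

variable {V : Type} [Fintype V] [DecidableEq V] (G : SimpleGraph V) [DecidableRel G.Adj]

/-- the non-backtracking successor relation on darts -/
abbrev NB {V : Type} (G : SimpleGraph V) (e f : G.Dart) : Prop := e.snd = f.fst ∧ f ≠ e.symm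

omit [Fintype V] [DecidableEq V] [DecidableRel G.Adj] in
theorem nb_iff (e f : G.Dart) : NB G e f ↔ e.snd = f.fst ∧ f.snd ≠ e.fst := by
  constructor
  · rintro ⟨h1, h2⟩
    refine ⟨h1, fun h3 => h2 ?_⟩
    ext
    · simp [h1]
    · simp [h3]
  · rintro ⟨h1, h2⟩
    refine ⟨h1, fun h3 => h2 ?_⟩
    rw [h3]
    simp

theorem sum_dart (F : V → V → ℝ) :
    ∑ f : G.Dart, F f.fst f.snd = ∑ v, ∑ y ∈ G.neighborFinset v, F v y := by
  rw [Finset.sum_sigma']
  refine Finset.sum_bij (fun f _ => ⟨f.fst, f.snd⟩) ?_ ?_ ?_ ?_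
  · intro f _
    simp
  · intro f _ g _ h
    simp only [Sigma.mk.injEq, heq_eq_eq] at h
    ext
    · exact h.1
    · exact h.2
  · rintro ⟨v, y⟩ h
    simp only [mem_sigma, mem_univ, SimpleGraph.mem_neighborFinset, true_and] at h
    exact ⟨⟨(v, y), h⟩, mem_univ _, rfl⟩
  · intro f _
    rfl

omit [DecidableEq V] in
theorem sum_dart_symm (F : V → V → ℝ) :
    ∑ f : G.Dart, F f.snd f.fst = ∑ f : G.Dart, F f.fst f.snd := by
  exact Equiv.sum_comp (SimpleGraph.Dart.symm_involutive.toPerm _)
    (fun f : G.Dart => F f.fst f.snd)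

theorem sum_dart' (F : V → V → ℝ) :
    ∑ f : G.Dart, F f.snd f.fst = ∑ v, ∑ y ∈ G.neighborFinset v, F v y := by
  rw [sum_dart_symm, sum_dart]

/-- edge weights -/
noncomputable def mw (r : ℝ) (u v : V) : ℝ :=
  if G.degree u = 3 ∧ G.degree v = 3 then 4 else r + 2

/-- turn weights -/
noncomputable def tw (r : ℝ) (v x y : V) : ℝ :=
  mw G r v x + mw G r v y - (∑ z ∈ G.neighborFinset v, mw G r v z) / 2

/-- the flow on pairs of darts -/
noncomputable def QQ (r : ℝ) (e f : G.Dart) : ℝ :=
  if e.snd = f.fst ∧ f.snd ≠ e.fst then tw G r e.snd e.fst f.snd else 0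

omit [DecidableEq V] in
theorem mw_comm (r : ℝ) (u v : V) : mw G r u v = mw G r v u := by
  unfold mw
  simp only [and_comm]

omit [DecidableEq V] in
theorem tw_comm (r : ℝ) (v x y : V) : tw G r v x y = tw G r v y x := by
  unfold tw
  ring

theorem sum_QQ_fun (r : ℝ) (g : ℝ → ℝ) (hg : g 0 = 0) (e : G.Dart) :
    ∑ f, g (QQ G r e f)
      = ∑ y ∈ G.neighborFinset e.snd, if y ≠ e.fst then g (tw G r e.snd e.fst y) else 0 := by
  have h1 : ∀ f : G.Dart, g (QQ G r e f) = (fun v y =>
      if e.snd = v then (if y ≠ e.fst then g (tw G r e.snd e.fst y) else 0) else 0)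
        f.fst f.snd := by
    intro f
    unfold QQ
    by_cases h1 : e.snd = f.fst <;> by_cases h2 : f.snd = e.fst <;> simp [h1, h2, hg]
  rw [Finset.sum_congr rfl (fun f _ => h1 f), sum_dart G (fun v y =>
      if e.snd = v then (if y ≠ e.fst then g (tw G r e.snd e.fst y) else 0) else 0)]
  rw [Finset.sum_eq_single e.snd]
  · simp
  · intro v _ hv
    simp [Ne.symm hv]
  · simp

theorem QQ_symm (r : ℝ) (e f : G.Dart) : QQ G r e f = QQ G r f.symm e.symm := by
  unfold QQ
  simp only [SimpleGraph.Dart.symm_toProd, Prod.snd_swap, Prod.fst_swap]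
  by_cases h1 : e.snd = f.fst
  · by_cases h2 : f.snd = e.fst
    · simp [h1, h2]
    · simp [h1, h2, Ne.symm h2, tw_comm]
  · simp [h1, Ne.symm h1]

variable (hdeg : ∀ v, G.degree v = 2 ∨ G.degree v = 3)
include hdeg

theorem row_local (r : ℝ) (v x : V) (hx : x ∈ G.neighborFinset v) :
    (∑ y ∈ G.neighborFinset v, if y ≠ x then tw G r v x y else 0) = mw G r v x := by
  rw [← Finset.sum_filter, Finset.filter_ne']
  unfold tw
  rw [Finset.sum_sub_distrib, Finset.sum_add_distrib, Finset.sum_const, Finset.sum_const,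
    Finset.card_erase_of_mem hx, SimpleGraph.card_neighborFinset_eq_degree,
    ← Finset.add_sum_erase _ _ hx]
  rcases hdeg v with h | h
  · have hm : ∀ z, mw G r v z = r + 2 := fun z => by simp [mw, h]
    simp only [hm, Finset.sum_const, Finset.card_erase_of_mem hx,
      SimpleGraph.card_neighborFinset_eq_degree, h]
    simp
  · rw [h]
    simp only [nsmul_eq_mul]
    push_cast
    ring

theorem QQ_row (r : ℝ) (e : G.Dart) : ∑ f, QQ G r e f = mw G r e.fst e.snd := by
  have := sum_QQ_fun G r id rfl e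
  simp only [id] at this
  rw [this, row_local G hdeg r _ _ (by simpa using e.adj.symm), mw_comm]

theorem QQ_col (r : ℝ) (f : G.Dart) : ∑ e, QQ G r e f = mw G r f.fst f.snd := by
  rw [Finset.sum_congr rfl (fun e _ => QQ_symm G r e f)]
  have := Equiv.sum_comp (SimpleGraph.Dart.symm_involutive.toPerm _)
    (fun e : G.Dart => QQ G r f.symm e)
  simp only [Function.Involutive.coe_toPerm] at this
  rw [this, QQ_row G hdeg, mw_comm]
  simp

omit [DecidableEq V] hdeg in
theorem mw_bounds {r : ℝ} (hr : r ^ 3 = r + 2) (u v : V) : 3.5 ≤ mw G r u v ∧ mw G r u v ≤ 4 := by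
  obtain ⟨h1, h2⟩ := root_bounds hr
  unfold mw
  split_ifs
  · norm_num
  · constructor <;> linarith

omit [DecidableEq V] in
theorem tw_nonneg {r : ℝ} (hr : r ^ 3 = r + 2) (v x y : V) : 0 ≤ tw G r v x y := by
  unfold tw
  have h1 := (mw_bounds G hr v x).1
  have h2 := (mw_bounds G hr v y).1
  have h3 : ∑ z ∈ G.neighborFinset v, mw G r v z ≤ ∑ z ∈ G.neighborFinset v, (4 : ℝ) :=
    Finset.sum_le_sum fun z _ => (mw_bounds G hr v z).2
  rw [Finset.sum_const, SimpleGraph.card_neighborFinset_eq_degree, nsmul_eq_mul] at h3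
  have h4 : (G.degree v : ℝ) ≤ 3 := by
    rcases hdeg v with h | h <;> rw [h] <;> norm_num
  linarith

theorem QQ_nonneg {r : ℝ} (hr : r ^ 3 = r + 2) (e f : G.Dart) : 0 ≤ QQ G r e f := by
  unfold QQ
  split_ifs
  · exact tw_nonneg G hdeg hr _ _ _
  · exact le_rfl

omit [DecidableEq V] in
theorem exists_succ (e : G.Dart) : ∃ f, NB G e f := by
  classical
  have h1 : 1 < (G.neighborFinset e.snd).card := by
    rw [SimpleGraph.card_neighborFinset_eq_degree]
    rcases hdeg e.snd with h | h <;> omega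
  obtain ⟨y, hy, hne⟩ := Finset.exists_mem_ne h1 e.fst
  refine ⟨⟨(e.snd, y), by simpa using hy⟩, ?_⟩
  rw [nb_iff]
  exact ⟨rfl, hne⟩

/-- the local excess at a vertex -/
noncomputable def loc (G : SimpleGraph V) [DecidableRel G.Adj] (r : ℝ) (v : V) : ℝ :=
  ∑ x ∈ G.neighborFinset v, phi (mw G r v x)
    - (∑ x ∈ G.neighborFinset v, ∑ y ∈ G.neighborFinset v,
        if y ≠ x then phi (tw G r v x y) else 0)
    - (∑ x ∈ G.neighborFinset v, mw G r v x) * log r

/-- the antisymmetric discharging term -/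
noncomputable def dis (G : SimpleGraph V) [DecidableRel G.Adj] (u v : V) : ℝ :=
  (if G.degree u = 2 ∧ G.degree v = 3 then 0.1 else 0)
    - (if G.degree u = 3 ∧ G.degree v = 2 then 0.1 else 0)

theorem loc_bound {r : ℝ} (hr : r ^ 3 = r + 2) (v : V) :
    (2 * (r + 2) * log r + 0.2) * ((if G.degree v = 3 then 1 else 0)
      - (if G.degree v = 2 then 1 else 0)) + ∑ x ∈ G.neighborFinset v, dis G v x
      ≤ loc G r v := by
  rcases hdeg v with h | h
  · have hc : (G.neighborFinset v).card = 2 := by
      rw [SimpleGraph.card_neighborFinset_eq_degree, h]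
    obtain ⟨a, b, hab, hN⟩ := Finset.card_eq_two.1 hc
    have hm : ∀ z, mw G r v z = r + 2 := fun z => by simp [mw, h]
    have ht : ∀ x y, tw G r v x y = r + 2 := fun x y => by
      unfold tw
      simp only [hm, hN, Finset.sum_pair hab]
      ring
    have hd : ∀ x, dis G v x ≤ 0.1 := fun x => by
      unfold dis
      simp only [h]
      split_ifs <;> norm_num
    have ha := hd a
    have hb := hd b
    unfold loc
    simp only [hm, ht, hN, Finset.sum_pair hab, h]
    simp only [ne_eq, not_true_eq_false, if_false, hab, Ne.symm hab, not_false_eq_true, if_true]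
    norm_num
    linarith
  · have hc : (G.neighborFinset v).card = 3 := by
      rw [SimpleGraph.card_neighborFinset_eq_degree, h]
    obtain ⟨a, b, c, hab, hac, hbc, hN⟩ := Finset.card_eq_three.1 hc
    have hs : ∀ F : V → ℝ, ∑ x ∈ G.neighborFinset v, F x = F a + F b + F c := by
      intro F
      rw [hN, Finset.sum_insert (by simp [hab, hac]), Finset.sum_pair hbc, add_assoc]
    have hcase : ∀ x, (mw G r v x = 4 ∧ (-10 * dis G v x) = 0)
        ∨ (mw G r v x = r + 2 ∧ (-10 * dis G v x) = 1) := fun x => by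
      rcases hdeg x with hx | hx
      · right
        simp only [mw, dis, h, hx]
        norm_num
      · left
        simp only [mw, dis, h, hx]
        norm_num
    have key := exc_bound hr _ _ _ _ _ _ (hcase a) (hcase b) (hcase c)
    have t1 : tw G r v a b = (mw G r v a + mw G r v b - mw G r v c) / 2 := by
      unfold tw; rw [hs]; ring
    have t2 : tw G r v a c = (mw G r v a + mw G r v c - mw G r v b) / 2 := by
      unfold tw; rw [hs]; ring
    have t3 : tw G r v b c = (mw G r v b + mw G r v c - mw G r v a) / 2 := by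
      unfold tw; rw [hs]; ring
    unfold loc
    simp only [hs, h]
    simp only [ne_eq, not_true_eq_false, if_false, hab, Ne.symm hab, hac, Ne.symm hac, hbc,
      Ne.symm hbc, not_false_eq_true, if_true]
    rw [tw_comm G r v b a, tw_comm G r v c a, tw_comm G r v c b, t1, t2, t3]
    unfold exc at key
    norm_num at key ⊢
    linarith

omit hdeg in
theorem sum_dis : ∑ v, ∑ x ∈ G.neighborFinset v, dis G v x = 0 := by
  have h1 := sum_dart G (dis G)
  have h2 := sum_dart' G (dis G)
  have h3 : ∑ f : G.Dart, dis G f.snd f.fst = -∑ f : G.Dart, dis G f.fst f.snd := by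
    rw [← Finset.sum_neg_distrib]
    refine Finset.sum_congr rfl fun f _ => ?_
    unfold dis
    simp only [and_comm]
    ring
  linarith

theorem entropy_ge {r : ℝ} (hr : r ^ 3 = r + 2)
    (hcard : (univ.filter fun v => G.degree v = 2).card
      = (univ.filter fun v => G.degree v = 3).card) :
    (∑ e : G.Dart, mw G r e.fst e.snd) * log r
      ≤ ∑ e : G.Dart, mw G r e.fst e.snd * log (mw G r e.fst e.snd)
        - ∑ e : G.Dart, ∑ f, QQ G r e f * log (QQ G r e f) := by
  have h1 : ∑ e : G.Dart, ∑ f, QQ G r e f * log (QQ G r e f)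
      = ∑ v, ∑ x ∈ G.neighborFinset v, ∑ y ∈ G.neighborFinset v,
        if y ≠ x then phi (tw G r v x y) else 0 := by
    rw [← sum_dart' G (fun v x => ∑ y ∈ G.neighborFinset v,
        if y ≠ x then phi (tw G r v x y) else 0)]
    refine Finset.sum_congr rfl fun e _ => ?_
    exact sum_QQ_fun G r phi (by simp [phi]) e
  have h2 := sum_dart G (fun u v => phi (mw G r u v))
  have h3 := sum_dart G (mw G r)
  have h4 := Finset.sum_le_sum (fun v (_ : v ∈ (univ : Finset V)) => loc_bound G hdeg hr v)
  rw [Finset.sum_add_distrib, sum_dis, ← Finset.mul_sum, Finset.sum_sub_distrib,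
    Finset.sum_boole, Finset.sum_boole, hcard, sub_self, mul_zero, add_zero] at h4
  unfold loc at h4
  rw [Finset.sum_sub_distrib, Finset.sum_sub_distrib, ← Finset.sum_mul] at h4
  rw [h1, h3]
  unfold phi at h2
  rw [h2]
  unfold phi at h4 ⊢
  linarith

theorem pow_le_card {r : ℝ} (hr : r ^ 3 = r + 2) [Nonempty G.Dart]
    (hcard : (univ.filter fun v => G.degree v = 2).card
      = (univ.filter fun v => G.degree v = 3).card) (l : ℕ) :
    r ^ l ≤ Nat.card (Chain (NB G) (l + 1)) := by
  have hb := root_bounds hr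
  refine pow_le_card_chain (NB G) (fun e => mw G r e.fst e.snd) (QQ G r) ?_
    (QQ_nonneg G hdeg hr) ?_ (QQ_row G hdeg r) (QQ_col G hdeg r) (exists_succ G hdeg) r
    (by linarith) (entropy_ge G hdeg hr hcard) l
  · intro e
    have := (mw_bounds G hr e.fst e.snd).1
    linarith
  · intro e f h
    rw [nb_iff]
    unfold QQ at h
    by_contra hc
    exact h (if_neg hc)

omit [DecidableEq V] in
theorem nonempty_dart [Nonempty V] : Nonempty G.Dart := by
  obtain ⟨v⟩ := ‹Nonempty V›
  have h1 : 0 < (G.neighborFinset v).card := by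
    rw [SimpleGraph.card_neighborFinset_eq_degree]
    rcases hdeg v with h | h <;> omega
  obtain ⟨y, hy⟩ := Finset.card_pos.1 h1
  exact ⟨⟨(v, y), by simpa using hy⟩⟩

theorem growth_ge {r : ℝ} (hr : r ^ 3 = r + 2) [Nonempty V]
    (hcard : (univ.filter fun v => G.degree v = 2).card
      = (univ.filter fun v => G.degree v = 3).card) :
    ∃ s : ℝ, Tendsto (fun l : ℕ => (Nat.card (Chain (NB G) l) : ℝ) ^ (1 / (l : ℝ))) atTop (𝓝 s)
      ∧ r ≤ s := by
  have := nonempty_dart G hdeg
  obtain ⟨s, hs⟩ := exists_growth (NB G) (exists_succ G hdeg)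
  have hb := root_bounds hr
  exact ⟨s, hs, le_growth (fun l => (Nat.card (Chain (NB G) l) : ℝ)) r s (by linarith)
    (pow_le_card G hdeg hr hcard) hs⟩

end Pool.Agent.MP_879d0a_co.H89
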